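import Pool.Agent.Helper26.HN.Stmts
import Pool.Agent.Helper33.PM.Com

/-! # HN: the row DYZ (second copy) -/

set_option autoImplicit false

namespace Pool.Agent.Helper77.HN

open MeasureTheory Filter Pool.Agent.Helper95 Pool.Agent.Helper95.PW Pool.Agent.Helper95.LN
open Pool.Agent.Helper26.HN

theorem DYZ_one {n : ℕ} (u : Wf n) (w1 w2 w3 : R3 → ℝ) (c : ℝ)
    (h : ∀ y, w1 y ≤ w2 y + c * w3 y)
    (i1 : ∀ s, Integrable (fun x : Cf n => (∑ k, w1 (x k)) * u s x ^ 2))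
    (i2 : ∀ s, Integrable (fun x : Cf n => (∑ k, w2 (x k)) * u s x ^ 2))
    (i3 : ∀ s, Integrable (fun x : Cf n => (∑ k, w3 (x k)) * u s x ^ 2)) :
    one w1 u ≤ one w2 u + c * one w3 u := by
  unfold one
  rw [Finset.mul_sum, ← Finset.sum_add_distrib]
  refine Finset.sum_le_sum fun s _ => ?_
  rw [← integral_const_mul, ← integral_add (i2 s) ((i3 s).const_mul c)]
  refine integral_mono (i1 s) ((i2 s).add ((i3 s).const_mul c)) fun x => ?_
  show (∑ k, w1 (x k)) * u s x ^ 2 ≤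
    (∑ k, w2 (x k)) * u s x ^ 2 + c * ((∑ k, w3 (x k)) * u s x ^ 2)
  have h1 : ∑ k, w1 (x k) ≤ ∑ k, w2 (x k) + c * ∑ k, w3 (x k) := by
    rw [Finset.mul_sum, ← Finset.sum_add_distrib]
    exact Finset.sum_le_sum fun k _ => h _
  have h2 := mul_le_mul_of_nonneg_right h1 (sq_nonneg (u s x))
  linarith

theorem DYZ_pt {M : ℕ} (X : Fin M → R3) (a b : ℝ) (ha : 0 < a) (hab : a ≤ b) (y : R3) :
    near1 X b y ≤ near1 X a y + 1 / a * nbr X b y := by
  unfold near1 nbr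
  rw [Finset.mul_sum, ← Finset.sum_add_distrib]
  refine Finset.sum_le_sum fun j _ => ?_
  have hn : 0 ≤ nr (y - X j) := com_nr_nonneg _
  by_cases h1 : nr (y - X j) < b
  · by_cases h2 : nr (y - X j) < a
    · rw [if_pos h1, if_pos h2, if_pos h1]
      have : 0 < 1 / a := by positivity
      linarith
    · rw [if_pos h1, if_neg h2, if_pos h1, zero_add, mul_one]
      exact one_div_le_one_div_of_le ha (not_lt.1 h2)
  · have h2 : ¬ nr (y - X j) < a := fun h => h1 (lt_of_lt_of_le h hab)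
    rw [if_neg h1, if_neg h2, if_neg h1]
    simp

theorem DYZ_root {b : ℝ} (hb : 0 < b) :
    (b / 2) ^ (1 / 5 : ℝ) + 1 / 10 * b ^ (1 / 5 : ℝ) ≤ b ^ (1 / 5 : ℝ) := by
  have h1 : (1 / 2 : ℝ) ^ (1 / 5 : ℝ) ≤ 9 / 10 := by
    have h2 : (1 / 2 : ℝ) ^ (1 / 5 : ℝ) ≤ ((9 / 10 : ℝ) ^ 5) ^ (1 / 5 : ℝ) :=
      Real.rpow_le_rpow (by norm_num) (by norm_num) (by norm_num)
    have h3 : ((9 / 10 : ℝ) ^ 5) ^ (1 / 5 : ℝ) = 9 / 10 := by
      rw [← Real.rpow_natCast, ← Real.rpow_mul (by norm_num)]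
      norm_num
    rwa [h3] at h2
  have h4 : (b / 2) ^ (1 / 5 : ℝ) = b ^ (1 / 5 : ℝ) * (1 / 2 : ℝ) ^ (1 / 5 : ℝ) := by
    rw [← Real.mul_rpow hb.le (by norm_num)]
    congr 1
    ring
  have h5 : 0 < b ^ (1 / 5 : ℝ) := Real.rpow_pos_of_pos hb _
  rw [h4]
  nlinarith

theorem DYZ (h1 : ST_NRL) (h2 : ST_INZ) : ST_DYZ := by
  obtain ⟨C, hC, H1⟩ := h1
  refine ⟨20 * C, by positivity, ?_⟩
  intro n M X d s b u hSep hs hsb hbd hu ha hsq
  have hk : 0 ≤ kin u := com_kin_nonneg u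
  obtain ⟨Q, hQ⟩ : ∃ Q : ℝ, Q = (M : ℝ) ^ (2 / 5 : ℝ) * kin u ^ (3 / 5 : ℝ) := ⟨_, rfl⟩
  have hQ0 : 0 ≤ Q := by
    rw [hQ]
    exact mul_nonneg (Real.rpow_nonneg (Nat.cast_nonneg M) _) (Real.rpow_nonneg hk _)
  have hM0 : (0 : ℝ) ≤ M := Nat.cast_nonneg M
  have L : ∀ a b : ℝ, 0 < a → a ≤ b → b ≤ d → one (near1 X b) u ≤ one (near1 X a) u +
      C / a * (M + Q * (b * b ^ (1 / 5 : ℝ))) := by
    intro a b ha0 hab hbd
    have hb0 : 0 < b := by linarith
    have g1 := DYZ_one u (near1 X b) (near1 X a) (nbr X b) (1 / a) (DYZ_pt X a b ha0 hab)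
      (h2 n M X b u hu).1 (h2 n M X a u hu).1 (h2 n M X b u hu).2
    have g2 := H1 n M X d b u hSep hb0 hbd hu ha hsq
    have g3 : (kin u * b ^ 2) ^ (3 / 5 : ℝ) = kin u ^ (3 / 5 : ℝ) * (b * b ^ (1 / 5 : ℝ)) := by
      rw [Real.mul_rpow hk (by positivity)]
      congr 1
      rw [← Real.rpow_natCast, ← Real.rpow_mul hb0.le]
      have : ((2 : ℕ) : ℝ) * (3 / 5) = 1 + 1 / 5 := by norm_num
      rw [this, Real.rpow_add hb0, Real.rpow_one]
    rw [g3] at g2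
    have g4 : 1 / a * one (nbr X b) u ≤ 1 / a *
        (C * (M + (M : ℝ) ^ (2 / 5 : ℝ) * (kin u ^ (3 / 5 : ℝ) * (b * b ^ (1 / 5 : ℝ))))) :=
      mul_le_mul_of_nonneg_left g2 (by positivity)
    have g5 : 1 / a *
        (C * (M + (M : ℝ) ^ (2 / 5 : ℝ) * (kin u ^ (3 / 5 : ℝ) * (b * b ^ (1 / 5 : ℝ))))) =
        C / a * (M + Q * (b * b ^ (1 / 5 : ℝ))) := by
      rw [hQ]
      ring
    linarith
  have base : ∀ b : ℝ, s ≤ b → b ≤ 2 * s → b ≤ d → one (near1 X b) u ≤ one (near1 X s) u +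
      C * ((4 / s - 2 / b) * M + 20 * (Q * b ^ (1 / 5 : ℝ))) := by
    intro b hsb hb2 hbd
    have hb0 : 0 < b := by linarith
    have hr : 0 < b ^ (1 / 5 : ℝ) := Real.rpow_pos_of_pos hb0 _
    have g1 := L s b hs hsb hbd
    have g2 : C / s * (M + Q * (b * b ^ (1 / 5 : ℝ))) =
        C * (1 / s * M + b / s * (Q * b ^ (1 / 5 : ℝ))) := by
      field_simp
    have g3 : b / s ≤ 20 := by
      rw [div_le_iff₀ hs]
      linarith
    have g4 : 1 / s ≤ 4 / s - 2 / b := by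
      have h3 : 2 / b ≤ 2 / s := div_le_div_of_nonneg_left (by norm_num) hs hsb
      have h4 : 4 / s = 1 / s + 2 / s + 1 / s := by ring
      have h5 : 0 < 1 / s := by positivity
      linarith
    have g5 : 1 / s * M ≤ (4 / s - 2 / b) * M := mul_le_mul_of_nonneg_right g4 hM0
    have g6 : b / s * (Q * b ^ (1 / 5 : ℝ)) ≤ 20 * (Q * b ^ (1 / 5 : ℝ)) :=
      mul_le_mul_of_nonneg_right g3 (mul_nonneg hQ0 hr.le)
    have g7 : C * (1 / s * M + b / s * (Q * b ^ (1 / 5 : ℝ))) ≤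
        C * ((4 / s - 2 / b) * M + 20 * (Q * b ^ (1 / 5 : ℝ))) :=
      mul_le_mul_of_nonneg_left (by linarith) hC.le
    linarith
  have key : ∀ (I : ℕ) (b : ℝ), s ≤ b → b ≤ 2 ^ (I + 1) * s → b ≤ d →
      one (near1 X b) u ≤ one (near1 X s) u +
        C * ((4 / s - 2 / b) * M + 20 * (Q * b ^ (1 / 5 : ℝ))) := by
    intro I
    induction I with
    | zero =>
      intro b hsb hb2 hbd
      have e2 : (2 : ℝ) ^ (0 + 1) = 2 := by norm_num
      rw [e2] at hb2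
      exact base b hsb hb2 hbd
    | succ I ih =>
      intro b hsb hb2 hbd
      by_cases hb3 : b ≤ 2 * s
      · exact base b hsb hb3 hbd
      · rw [not_le] at hb3
        have hb0 : 0 < b := by linarith
        have hr : 0 < b ^ (1 / 5 : ℝ) := Real.rpow_pos_of_pos hb0 _
        have g1 := ih (b / 2) (by linarith) (by
          have : (2 : ℝ) ^ (I + 1 + 1) * s = 2 * (2 ^ (I + 1) * s) := by ring
          rw [this] at hb2
          linarith) (by linarith)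
        have g2 := L (b / 2) b (by linarith) (by linarith) hbd
        have g3 : C / (b / 2) * (M + Q * (b * b ^ (1 / 5 : ℝ))) =
            C * (2 / b * M + 2 * (Q * b ^ (1 / 5 : ℝ))) := by
          field_simp
        have g4 : 2 / (b / 2) = 4 / b := by
          field_simp
          norm_num
        have g5 := mul_le_mul_of_nonneg_left (DYZ_root hb0) hQ0
        have g6 : (4 / s - 2 / b) * M = (4 / s - 4 / b) * M + 2 / b * M := by ring
        have g7 : C * ((4 / s - 4 / b) * M + 20 * (Q * (b / 2) ^ (1 / 5 : ℝ))) +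
            C * (2 / b * M + 2 * (Q * b ^ (1 / 5 : ℝ))) ≤
            C * ((4 / s - 2 / b) * M + 20 * (Q * b ^ (1 / 5 : ℝ))) := by
          rw [g6, ← mul_add]
          apply mul_le_mul_of_nonneg_left _ hC.le
          linarith
        rw [g4] at g1
        rw [g3] at g2
        linarith
  obtain ⟨I, hI⟩ := pow_unbounded_of_one_lt (b / s) (by norm_num : (1 : ℝ) < 2)
  have hb0 : 0 < b := by linarith
  have g1 := key I b hsb (by
    rw [div_lt_iff₀ hs] at hI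
    have : (2 : ℝ) ^ I * s ≤ 2 ^ (I + 1) * s := by
      apply mul_le_mul_of_nonneg_right _ hs.le
      exact pow_le_pow_right₀ (by norm_num) (Nat.le_succ I)
    linarith) hbd
  have g2 : C * ((4 / s - 2 / b) * M + 20 * (Q * b ^ (1 / 5 : ℝ))) ≤
      20 * C * (M / s + (M : ℝ) ^ (2 / 5 : ℝ) * kin u ^ (3 / 5 : ℝ) * b ^ (1 / 5 : ℝ)) := by
    rw [← hQ]
    have h3 : 0 ≤ 2 / b * (M : ℝ) := by positivity
    have h4 : 0 ≤ (M : ℝ) / s := by positivity
    have h5 : (4 / s - 2 / b) * (M : ℝ) + 20 * (Q * b ^ (1 / 5 : ℝ)) ≤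
        20 * (M / s + Q * b ^ (1 / 5 : ℝ)) := by
      have : (4 / s - 2 / b) * (M : ℝ) = 4 * (M / s) - 2 / b * M := by ring
      rw [this]
      linarith
    have h6 := mul_le_mul_of_nonneg_left h5 hC.le
    linarith
  linarith

end Pool.Agent.Helper77.HN
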